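import Pool.Agent.W516.KCM.Defs

/-!
# Project KCM, part TRC
-/

set_option autoImplicit false

namespace Pool.Agent.W215.KCM

open Module TensorProduct Pool.Agent.W516.KCM

section

variable {k E T : Type} [Field k] [Field E] [Algebra k E] [Algebra k ℂ]
    [AddCommGroup T] [Module k T] [Module E T] [IsScalarTower k E T]

lemma act_tmul (r : ℂ) (a : E) (s : ℂ) (w : T) :
    actC k E T (r ⊗ₜ[k] a) (s ⊗ₜ[k] w) = (r * s) ⊗ₜ[k] (a • w) := by
  unfold actC
  rw [LinearMap.liftBaseChange_tmul, LinearMap.smul_apply]
  change r • ((Algebra.lsmul k k T a).baseChange ℂ (s ⊗ₜ[k] w)) = _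
  rw [LinearMap.baseChange_tmul, TensorProduct.smul_tmul', smul_eq_mul]
  rfl

lemma act_mul_apply (x y : ℂ ⊗[k] E) (z : ℂ ⊗[k] T) :
    actC k E T (x * y) z = actC k E T x (actC k E T y z) := by
  induction x using TensorProduct.induction_on with
  | zero => simp
  | add x₁ x₂ h₁ h₂ => rw [add_mul, map_add, map_add, LinearMap.add_apply, LinearMap.add_apply, h₁, h₂]
  | tmul r a =>
    induction y using TensorProduct.induction_on with
    | zero => simp
    | add y₁ y₂ h₁ h₂ =>
      rw [mul_add, map_add, map_add, LinearMap.add_apply, LinearMap.add_apply, map_add, h₁, h₂]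
    | tmul s b =>
      induction z using TensorProduct.induction_on with
      | zero => simp
      | add z₁ z₂ h₁ h₂ => rw [map_add, map_add, map_add, h₁, h₂]
      | tmul t w =>
        rw [Algebra.TensorProduct.tmul_mul_tmul, act_tmul, act_tmul, act_tmul, mul_assoc, mul_smul]

theorem trace_res [FiniteDimensional k E] [FiniteDimensional k T] (f : T →ₗ[E] T) :
    LinearMap.trace k T (f.restrictScalars k) = Algebra.trace k E (LinearMap.trace E T f) := by
  have : FiniteDimensional E T := FiniteDimensional.right k E T
  let b := Module.finBasis k E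
  let c := Module.finBasis E T
  rw [LinearMap.trace_eq_matrix_trace k (b.smulTower c), LinearMap.trace_eq_matrix_trace E c,
    Algebra.trace_eq_matrix_trace b]
  simp only [Matrix.trace, Matrix.diag_apply, LinearMap.toMatrix_apply,
    Algebra.leftMulMatrix_eq_repr_mul]
  rw [Fintype.sum_prod_type]
  simp only [Basis.smulTower_apply, Basis.smulTower_repr, LinearMap.restrictScalars_apply, map_smul,
    Finsupp.smul_apply, smul_eq_mul]
  refine Finset.sum_congr rfl fun i _ => ?_
  have h1 : ∑ j, b.repr (b i * c.repr (f (c j)) j) i =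
      b.repr (b i * ∑ j, c.repr (f (c j)) j) i := by
    rw [Finset.mul_sum, map_sum, Finsupp.finsetSum_apply]
  rw [h1, mul_comm]

lemma ev_tmul (τ : E →ₐ[k] ℂ) (r : ℂ) (a : E) : ev k E τ (r ⊗ₜ[k] a) = r * τ a := by
  unfold ev
  rw [Algebra.TensorProduct.lift_tmul]
  rfl

end

theorem T_TRC : S_TRC := by
  intro k E T _ _ _ _ _ _ _ _ _ _ _
  refine ⟨act_tmul, fun x y => LinearMap.ext fun z => act_mul_apply x y z, fun x y => ?_⟩
  have : FiniteDimensional E T := FiniteDimensional.right k E T
  induction y using TensorProduct.induction_on with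
  | zero => simp
  | add y₁ y₂ h₁ h₂ =>
    rw [map_add, LinearMap.comp_add, map_add, h₁, h₂, ← Finset.sum_add_distrib]
    refine Finset.sum_congr rfl fun τ _ => ?_
    rw [map_add, add_mul]
  | tmul r a =>
    have h1 : (x.restrictScalars k).baseChange ℂ ∘ₗ actC k E T (r ⊗ₜ[k] a) =
        r • (((a • x).restrictScalars k).baseChange ℂ) := by
      apply LinearMap.ext
      intro z
      induction z using TensorProduct.induction_on with
      | zero => simp
      | add z₁ z₂ h₁ h₂ => rw [map_add, map_add, h₁, h₂]
      | tmul s w =>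
        rw [LinearMap.comp_apply, act_tmul, LinearMap.baseChange_tmul, LinearMap.smul_apply,
          LinearMap.baseChange_tmul, TensorProduct.smul_tmul', smul_eq_mul]
        congr 1
        change x (a • w) = a • x w
        exact map_smul x a w
    rw [h1, map_smul, LinearMap.trace_baseChange, trace_res, map_smul, smul_eq_mul, smul_eq_mul,
      trace_eq_sum_embeddings ℂ, Finset.mul_sum]
    refine Finset.sum_congr rfl fun τ _ => ?_
    rw [ev_tmul, map_mul, mul_assoc]

end Pool.Agent.W215.KCM
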